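import Pool.Agent.MP_826def_gt.BC.Spec

/-! The cobordism of a product of projective spaces. -/

namespace Pool.Agent.MP_826def_gt.BC

open Pool.Agent.MP_826def_gt.MU

noncomputable section

variable [C : Fact Core]

namespace Cpr

/-- The map whose bijectivity is claimed. -/
def F (r N m : ℕ) (c : (Fin r → Fin m) → H Unit) : H (Fin r → CP N m) :=
  ∑ e, Hact (ContinuousMap.id _) (∏ i, xs r N m i ^ (e i : ℕ)) (Hpull (toPt _) (c e))

/-- The last `r` coordinates. -/
def tl (r N m : ℕ) : C(Fin (r + 1) → CP N m, Fin r → CP N m) :=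
  ⟨fun b i => b i.succ, continuous_pi fun i => continuous_apply i.succ⟩

/-- The first coordinate. -/
def hd (r N m : ℕ) : C(Fin (r + 1) → CP N m, CP N m) := ⟨fun b => b 0, continuous_apply 0⟩

omit C in
theorem homeo (r N m : ℕ) : IsHomeomorph fun p => (tl r N m p, hd r N m p) := by
  refine isHomeomorph_iff_continuous_bijective.2
    ⟨(tl r N m).continuous.prodMk (hd r N m).continuous, fun p p' e => ?_, fun z => ?_⟩
  · funext i
    exact Fin.cases (congrArg Prod.snd e) (fun j => congrFun (congrArg Prod.fst e) j) i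
  · exact ⟨Fin.cons z.2 z.1, rfl⟩

theorem zero (A : Api) (N m : ℕ) : Function.Bijective (F 0 N m) := by
  let g : C(Unit, Fin 0 → CP N m) := ContinuousMap.const _ fun i => i.elim0
  have e1 : (toPt (Fin 0 → CP N m)).comp g = ContinuousMap.id _ := rfl
  have e2 : g.comp (toPt (Fin 0 → CP N m)) = ContinuousMap.id _ :=
    ContinuousMap.ext fun _ => Subsingleton.elim _ _
  have hb : Function.Bijective (Hpull (toPt (Fin 0 → CP N m))) :=
    Function.bijective_iff_has_inverse.2 ⟨Hpull g, fun y => by
      rw [A.act.Hcomp _ _ (toPt _).continuous.isProperMap g.continuous.isProperMap, e1, A.act.Hid],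
      fun y => by
      rw [A.act.Hcomp _ _ g.continuous.isProperMap (toPt _).continuous.isProperMap, e2, A.act.Hid]⟩
  have : F 0 N m = Hpull (toPt (Fin 0 → CP N m)) ∘ Equiv.funUnique (Fin 0 → Fin m) (H Unit) := by
    funext c
    rw [F, Fintype.sum_unique, Fin.prod_univ_zero, map_one]
    rfl
  rw [this]
  exact hb.comp (Equiv.bijective _)

theorem step (A : Api) (r N m : ℕ) (c : (Fin (r + 1) → Fin m) → H Unit) :
    F (r + 1) N m c = ∑ i : Fin m, Hact (hd r N m) (eu (taut N m) ^ (i : ℕ))
      (Hpull (tl r N m) (F r N m fun e => c (Fin.cons i e))) := by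
  rw [F, ← (Fin.consEquiv fun _ : Fin (r + 1) => Fin m).sum_comp, Fintype.sum_prod_type]
  refine Finset.sum_congr rfl fun i _ => ?_
  rw [F, map_sum, map_sum]
  refine Finset.sum_congr rfl fun e _ => ?_
  have e0 : xs (r + 1) N m 0 = pullR (hd r N m) (eu (taut N m)) := (A.eul.pull _ _).symm
  have e1 : ∀ j : Fin r, xs (r + 1) N m j.succ = pullR (tl r N m) (xs r N m j) := fun j =>
    (A.eul.pull (tl r N m) ((taut N m).pull ⟨fun b => b j, continuous_apply j⟩)).symm
  have e2 : ∏ j, xs (r + 1) N m j ^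
      (((Fin.consEquiv fun _ : Fin (r + 1) => Fin m) (i, e) j : Fin m) : ℕ) =
      pullR (hd r N m) (eu (taut N m) ^ (i : ℕ)) *
        pullR (tl r N m) (∏ j, xs r N m j ^ (e j : ℕ)) := by
    rw [Fin.prod_univ_succ, map_pow, map_prod, e0]
    exact congrArg _ (Finset.prod_congr rfl fun j _ => by rw [map_pow, e1]; rfl)
  rw [e2, map_mul, (A.act.base _ _ _).2, (A.act.base _ _ _).2, (A.act.pull _ _ _).2,
    A.act.Hcomp _ _ (toPt _).continuous.isProperMap (tl r N m).continuous.isProperMap]
  rfl

theorem bij (A : Api) (c : S_CPX) (N m : ℕ) (hm : m ≤ N) (r : ℕ) : Function.Bijective (F r N m) := by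
  induction r with
  | zero => exact zero A N m
  | succ r ih =>
    have h1 := (c N m).2 hm (tl r N m) (hd r N m) (homeo r N m)
    have h2 : Function.Bijective fun (d : Fin m → (Fin r → Fin m) → H Unit) (i : Fin m) =>
        F r N m (d i) := ih.comp_left
    have h3 : Function.Bijective fun (d : (Fin (r + 1) → Fin m) → H Unit) (i : Fin m)
        (e : Fin r → Fin m) => d (Fin.cons i e) :=
      (((Fin.consEquiv fun _ : Fin (r + 1) => Fin m).symm.arrowCongr (Equiv.refl _)).trans
        (Equiv.curry _ _ _)).bijective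
    rw [show F (r + 1) N m = _ from funext (step A r N m)]
    exact h1.comp (h2.comp h3)

end Cpr

theorem cpr (A : Api) (c : S_CPX) : S_CPr := by
  intro r N m hm
  have hb := Cpr.bij A c N m hm r
  refine ⟨fun i => ?_, ?_, hb⟩
  · rw [xs, ← A.eul.pull, ← map_pow, (c N m).1, map_zero]
  · have e : ∀ d : (Fin r → Fin m) → H Unit, (Cpr.F r N m d).1 =
        ∑ e, (∏ i, xs r N m i ^ (e i : ℕ)) • (toU (Fin r → CP N m) : UU →+ h _) (d e).1 := by
      intro d
      rw [Cpr.F, Prod.fst_sum]
      refine Finset.sum_congr rfl fun e _ => ?_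
      rfl
    have e' : ∀ d d' : (Fin r → Fin m) → H Unit, (∀ e, (d e).2 = (d' e).2) →
        (Cpr.F r N m d).2 = (Cpr.F r N m d').2 := by
      intro d d' hd
      rw [Cpr.F, Cpr.F, Prod.snd_sum, Prod.snd_sum]
      refine Finset.sum_congr rfl fun e _ => ?_
      exact congrArg (fun y => act _ _ (pull _ y)) (hd e)
    constructor
    · intro a b hab
      have : (fun e => ((a e, 0) : H Unit)) = fun e => ((b e, 0) : H Unit) :=
        hb.1 (Prod.ext (by rw [e, e]; exact hab) (e' _ _ fun _ => rfl))
      exact funext fun e => congrArg Prod.fst (congrFun this e)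
    · intro y
      obtain ⟨d, hd⟩ := hb.2 (y, 0)
      exact ⟨fun e => (d e).1, (e d).symm.trans (congrArg Prod.fst hd)⟩

end

end Pool.Agent.MP_826def_gt.BC
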