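import Pool.Agent.MP_826def_gt.BC.Spec

/-! The projective bundle theorem for a trivial bundle. -/

namespace Pool.Agent.MP_826def_gt.BC

open Pool.Agent.MP_826def_gt.MU Set Topology Filter

namespace Pbt0

theorem pj_smul {N : ℕ} {c : ℂ} (hc : c ≠ 0) (u : Fin N → ℂ) : pj (c • u) = pj u := by
  funext i j
  have h1 : ((Complex.normSq c : ℝ) : ℂ) ≠ 0 :=
    Complex.ofReal_ne_zero.2 (Complex.normSq_pos.2 hc).ne'
  simp only [pj, Pi.smul_apply, smul_eq_mul, map_mul, ← Finset.mul_sum, Complex.ofReal_mul]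
  rw [← mul_div_mul_left (u i * (starRingEnd ℂ) (u j)) _ h1]
  congr 1
  rw [Complex.normSq_eq_conj_mul_self]
  ring

theorem ex_vec {N m : ℕ} (q : CP N m) : ∃ u, u ≠ 0 ∧ pj u = q.1 ∧ mv q.1 u = u := by
  obtain ⟨u, hu, -, e⟩ := q.2
  have h0 : u ≠ 0 := fun e => by rw [e, norm_zero] at hu; exact zero_ne_one hu
  exact ⟨u, h0, e, e ▸ mv_pj_self h0⟩

theorem ex_map {T : Type} [TopologicalSpace T] {N m k : ℕ} (q : C(T, CP N m))
    (a : C(T, (Fin N → ℂ) →L[ℂ] Fin k → ℂ))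
    (ha : ∀ t w, w ≠ 0 → mv (q t).1 w = w → a t w ≠ 0) :
    ∃ q₁ : C(T, CP k k), ∀ t w, w ≠ 0 → mv (q t).1 w = w → (q₁ t).1 = pj (a t w) := by
  choose u h0 e hu using fun t => ex_vec (q t)
  have key : ∀ t w, w ≠ 0 → mv (q t).1 w = w → pj (a t (u t)) = pj (a t w) := fun t w hw h => by
    rw [← e, mv_pj] at h
    generalize (∑ j, (starRingEnd ℂ) (u t j) * w j) /
      ((∑ k, Complex.normSq (u t k) : ℝ) : ℂ) = c at h
    have hc : c ≠ 0 := fun z => hw (by rw [← h, z, zero_smul])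
    rw [← h, map_smul, pj_smul hc]
  have mem : ∀ t, ∃ w : Fin k → ℂ, ‖w‖ = 1 ∧ (∀ i : Fin k, k ≤ i → w i = 0) ∧
      pj w = pj (a t (u t)) := fun t => by
    have h1 : ‖a t (u t)‖ ≠ 0 := norm_ne_zero_iff.2 (ha t _ (h0 t) (hu t))
    refine ⟨((‖a t (u t)‖⁻¹ : ℝ) : ℂ) • a t (u t), ?_, fun i hi => absurd i.2 (not_lt.2 hi),
      pj_smul (Complex.ofReal_ne_zero.2 (inv_ne_zero h1)) _⟩
    rw [norm_smul, Complex.norm_real, norm_inv, norm_norm, inv_mul_cancel₀ h1]
  refine ⟨⟨fun t => ⟨pj (a t (u t)), mem t⟩, Continuous.subtype_mk ?_ _⟩, key⟩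
  refine continuous_iff_continuousAt.2 fun t₀ => ?_
  have c1 : Continuous fun t => mv (q t).1 (u t₀) :=
    (mv_cont.comp (continuous_subtype_val.comp q.continuous)).clm_apply continuous_const
  have c2 : Continuous fun t => a t (mv (q t).1 (u t₀)) := a.continuous.clm_apply c1
  have n1 : ∀ᶠ t in 𝓝 t₀, mv (q t).1 (u t₀) ≠ 0 :=
    c1.continuousAt.eventually_ne (by rw [hu]; exact h0 t₀)
  have c3 : ContinuousAt (fun t => pj (a t (mv (q t).1 (u t₀)))) t₀ :=
    ContinuousAt.comp (f := fun t => a t (mv (q t).1 (u t₀)))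
      (pj_cont.continuousAt (isOpen_ne.mem_nhds (by
        show a t₀ (mv (q t₀).1 (u t₀)) ≠ 0
        rw [hu]; exact ha _ _ (h0 t₀) (hu t₀)))) c2.continuousAt
  refine c3.congr (n1.mono fun t ht => (key t _ ht ?_).symm)
  exact congrArg (fun A : (Fin N → ℂ) →L[ℂ] Fin N → ℂ => A (u t₀)) (q t).idem

variable [C : Fact Core]

theorem line (A : Api) {T : Type} [TopologicalSpace T] {N m k : ℕ} (q : C(T, CP N m))
    (q₁ : C(T, CP k k)) (a : C(T, (Fin N → ℂ) →L[ℂ] Fin k → ℂ))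
    (ha : ∀ t w, w ≠ 0 → mv (q t).1 w = w → a t w ≠ 0)
    (h₁ : ∀ t w, w ≠ 0 → mv (q t).1 w = w → (q₁ t).1 = pj (a t w)) :
    act q (eu (taut N m)) = act q₁ (eu (taut k k)) := by
  obtain ⟨v, hv⟩ := A.bun.iso_of ((taut N m).pull q) ((taut k k).pull q₁) a
    (fun t => (A.bun.rk_taut N m (q t)).trans (A.bun.rk_taut k k (q₁ t)).symm) fun t w hw => by
      by_cases h0 : w = 0
      · subst h0
        exact ⟨by rw [map_zero, map_zero], fun _ => rfl⟩
      · refine ⟨?_, fun z => absurd z (ha t w h0 hw)⟩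
        show mv (q₁ t).1 (a t w) = a t w
        rw [h₁ t w h0 hw, mv_pj_self (ha t w h0 hw)]
  refine AddMonoidHom.ext fun y => ((A.eul.act q _).1 y).symm.trans
    (Eq.trans ?_ ((A.eul.act q₁ _).1 y))
  exact (A.tw.iso (ContinuousMap.id T) ((taut N m).pull q) ((taut k k).pull q₁) 0 0
    ⟨fun t => a t ∘L ((taut N m).pull q).p t,
      a.continuous.clm_comp ((taut N m).pull q).p.continuous⟩ v
    (A.tw.tw_id _ 0 fun _ => map_zero _).1 fun t => ⟨(hv t).1, (hv t).2, map_zero _⟩).2 y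

end Pbt0

open Pbt0

variable [C : Fact Core]

theorem pbt0 (A : Api) (c : S_CPX) : S_PBT0 := by
  intro X P _ _ _ _ ξ k N φ π q ⟨u, v, huv⟩ ⟨he, hr⟩
  have vu : ∀ x w, v x (u x w) = ξ.p x w := fun x w =>
    congrArg (fun B : ξ.W →L[ℂ] ξ.W => B w) (huv x).1
  have uv : ∀ x w, u x (v x w) = w := fun x w =>
    congrArg (fun B : (Fin k → ℂ) →L[ℂ] Fin k → ℂ => B w) (huv x).2
  let a : C(P, (Fin N → ℂ) →L[ℂ] Fin k → ℂ) :=
    ⟨fun p => u (π p) ∘L (φ : FD.std N →L[ℂ] ξ.W),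
      (u.continuous.comp π.continuous).clm_comp continuous_const⟩
  let b : C(X × CP k k, (Fin k → ℂ) →L[ℂ] Fin N → ℂ) :=
    ⟨fun z => (φ.symm : ξ.W →L[ℂ] FD.std N) ∘L v z.1,
      continuous_const.clm_comp (v.continuous.comp continuous_fst)⟩
  have ea : ∀ p w, a p w = u (π p) (φ w) := fun _ _ => rfl
  have eb : ∀ z w, b z w = φ.symm (v z.1 w) := fun _ _ => rfl
  have fix : ∀ p w, mv (q p).1 w = w → ξ.p (π p) (φ w) = φ w := fun p w hw => by
    have : (π p, q p) ∈ range fun e => (π e, q e) := ⟨p, rfl⟩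
    rw [hr] at this
    simpa only [hw] using this w
  have ha : ∀ p w, w ≠ 0 → mv (q p).1 w = w → a p w ≠ 0 := fun p w h0 hw z => h0 (by
    have := vu (π p) (φ w)
    rw [← ea, z, map_zero, fix p w hw] at this
    exact φ.map_eq_zero_iff.1 this.symm)
  have hb : ∀ z w, w ≠ 0 → b z w ≠ 0 := fun z w h0 e => h0 (by
    rw [eb, ContinuousLinearEquiv.map_eq_zero_iff] at e
    rw [← uv z.1 w, e, map_zero])
  obtain ⟨q₁, h₁⟩ := ex_map q a ha
  obtain ⟨G, hG⟩ := ex_map (ContinuousMap.snd : C(X × CP k k, CP k k)) b fun z w h0 _ => hb z w h0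
  have mem : ∀ z : X × CP k k, ∃ p, (π p, q p) = (z.1, G z) := fun z => by
    have : (z.1, G z) ∈ range fun e => (π e, q e) := by
      rw [hr]
      intro y
      obtain ⟨w, h0, -, hw⟩ := ex_vec z.2
      show ξ.p z.1 (φ (mv (G z).1 y)) = φ (mv (G z).1 y)
      rw [hG z w h0 hw, mv_pj, map_smul, map_smul, eb, φ.apply_symm_apply, ← vu, uv]
    exact this
  choose g hg using mem
  have cg : Continuous g := he.continuous_iff.2 (by
    have : (fun e => (π e, q e)) ∘ g = fun z => (z.1, G z) := funext hg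
    rw [this]
    exact continuous_fst.prodMk G.continuous)
  have ho : IsHomeomorph fun p => (π p, q₁ p) := by
    refine isHomeomorph_iff_exists_inverse.2 ⟨π.continuous.prodMk q₁.continuous, g, fun p => ?_,
      fun z => ?_, cg⟩
    · refine he.injective ((hg _).trans (Prod.ext rfl (Subtype.ext ?_)))
      obtain ⟨w, h0, e, hw⟩ := ex_vec (q p)
      have h2 : mv (q₁ p).1 (a p w) = a p w := by rw [h₁ p w h0 hw, mv_pj_self (ha p w h0 hw)]
      show (G (π p, q₁ p)).1 = (q p).1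
      rw [hG (π p, q₁ p) _ (ha p w h0 hw) h2, eb, ea, vu, fix p w hw, φ.symm_apply_apply, e]
    · have e1 : π (g z) = z.1 := congrArg Prod.fst (hg z)
      have e2 : q (g z) = G z := congrArg Prod.snd (hg z)
      refine Prod.ext e1 (Subtype.ext ?_)
      obtain ⟨w, h0, e, hw⟩ := ex_vec z.2
      have h2 : mv (q (g z)).1 (b z w) = b z w := by
        rw [e2, hG z w h0 hw, mv_pj_self (hb z w h0)]
      show (q₁ (g z)).1 = z.2.1
      rw [h₁ _ _ (hb z w h0) h2, ea, eb, φ.apply_symm_apply, e1, uv, e]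
  have hH : Hact q (eu (taut N N)) = Hact q₁ (eu (taut k k)) :=
    congrArg₂ AddMonoidHom.prodMap (line A q q₁ a ha h₁)
      (line A (q.comp ContinuousMap.fst) (q₁.comp ContinuousMap.fst)
        (a.comp (ContinuousMap.fst : C(P × ℝ, P))) (fun t => ha t.1) fun t => h₁ t.1)
  have := (c k k).2 le_rfl π q₁ ho
  simp only [map_pow] at this ⊢
  rw [hH]
  exact this

end Pool.Agent.MP_826def_gt.BC
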