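import Pool.Agent.MP_826def_gt.BC.Spec

/-! The projective bundle theorem from the case of trivial bundles. -/

namespace Pool.Agent.MP_826def_gt.BC

open Pool.Agent.MP_826def_gt.MU Set Topology

variable [C : Fact Core]

namespace Pbt1

/-- The inclusion of a subset. -/
abbrev vl {X : Type} [TopologicalSpace X] (S : Set X) : C(S, X) :=
  ⟨Subtype.val, continuous_subtype_val⟩

/-- The restriction of a map over a subset. -/
abbrev rs {X P : Type} [TopologicalSpace X] [TopologicalSpace P] (π : C(P, X)) (S : Set X) :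
    C(π ⁻¹' S, S) :=
  ⟨fun p => ⟨π p.1, p.2⟩, (π.continuous.comp continuous_subtype_val).subtype_mk _⟩

omit C in
theorem closed {X P : Type} [TopologicalSpace X] [TopologicalSpace P] {ξ : Bun X} {N : ℕ}
    {φ : FD.std N ≃L[ℂ] ξ.W} {π : C(P, X)} {q : C(P, CP N N)} (hp : IsPr ξ φ π q) :
    IsClosedEmbedding fun e => (π e, q e) := by
  refine ⟨hp.1, ?_⟩
  rw [hp.2, ofPred_forall]
  refine isClosed_iInter fun y => ?_
  have h1 : Continuous fun z : X × CP N N => φ (mv z.2.1 y) :=
    φ.continuous.comp ((mv_cont.comp (continuous_subtype_val.comp continuous_snd)).clm_apply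
      continuous_const)
  exact isClosed_eq ((ξ.p.continuous.comp continuous_fst).clm_apply h1) h1

omit C in
theorem proper {X P : Type} [TopologicalSpace X] [TopologicalSpace P] {ξ : Bun X} {N : ℕ}
    {φ : FD.std N ≃L[ℂ] ξ.W} {π : C(P, X)} {q : C(P, CP N N)} (hp : IsPr ξ φ π q) :
    IsProperMap π :=
  (isProperMap_fst_of_compactSpace (X := X) (Y := CP N N)).comp (closed hp).isProperMap

omit C in
theorem restr {X P : Type} [TopologicalSpace X] [TopologicalSpace P] {ξ : Bun X} {N : ℕ}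
    {φ : FD.std N ≃L[ℂ] ξ.W} {π : C(P, X)} {q : C(P, CP N N)} (hp : IsPr ξ φ π q) (S : Set X) :
    IsPr (ξ.pull (vl S)) φ (rs π S) (q.comp (vl _)) := by
  refine ⟨IsEmbedding.of_comp (g := Prod.map (Subtype.val : S → X) (id : CP N N → CP N N))
    ((rs π S).continuous.prodMk (q.comp (vl _)).continuous)
    (continuous_subtype_val.prodMap continuous_id)
    (hp.1.comp (IsEmbedding.subtypeVal (p := fun p => p ∈ π ⁻¹' S))), ?_⟩
  ext z
  constructor
  · rintro ⟨e, rfl⟩
    have : (π e.1, q e.1) ∈ range fun e => (π e, q e) := ⟨e.1, rfl⟩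
    rw [hp.2] at this
    exact this
  · intro hz
    have : (z.1.1, z.2) ∈ range fun e => (π e, q e) := by
      rw [hp.2]
      exact hz
    obtain ⟨e, he⟩ := this
    have h1 : π e = z.1.1 := congrArg Prod.fst he
    have h2 : q e = z.2 := congrArg Prod.snd he
    exact ⟨⟨e, show π e ∈ S from h1 ▸ z.1.2⟩, Prod.ext (Subtype.ext h1) h2⟩

omit C in
theorem pair {X : Type} [TopologicalSpace X] {U : Set X} (hU : IsOpen U) :
    Pair (vl Uᶜ) (vl U) :=
  ⟨hU.isClosed_compl.isClosedEmbedding_subtypeVal, hU.isOpenEmbedding_subtypeVal, by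
    show range Subtype.val = (range Subtype.val)ᶜ
    rw [Subtype.range_coe, Subtype.range_coe, compl_compl]⟩

omit C in
theorem exact_pi {A B D : Type 1} [AddCommGroup A] [AddCommGroup B] [AddCommGroup D] {f : A →+ B}
    {g : B →+ D} (e : Function.Exact f g) (k : ℕ) :
    Function.Exact (f.compLeft (Fin k)) (g.compLeft (Fin k)) := fun y => by
  constructor
  · intro hy
    choose x hx using fun i => (e (y i)).1 (congrFun hy i)
    exact ⟨x, funext hx⟩
  · rintro ⟨x, rfl⟩
    exact funext fun i => e.apply_apply_eq_zero (x i)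

section

variable {X P K : Type} [TopologicalSpace X] [TopologicalSpace P] [TopologicalSpace K]
  [CompactSpace K] [T2Space K]

/-- The map of the projective bundle theorem. -/
noncomputable def Phi (π : C(P, X)) (q : C(P, K)) (t : h K) (k : ℕ) : (Fin k → H X) →+ H P :=
  AddMonoidHom.mk' (fun c => ∑ i : Fin k, Hact q (t ^ (i : ℕ)) (Hpull π (c i))) fun c d => by
    rw [← Finset.sum_add_distrib]
    exact Finset.sum_congr rfl fun i _ => by rw [Pi.add_apply, map_add, map_add]

theorem Phi_apply (π : C(P, X)) (q : C(P, K)) (t : h K) (k : ℕ) (c : Fin k → H X) :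
    Phi π q t k c = ∑ i : Fin k, Hact q (t ^ (i : ℕ)) (Hpull π (c i)) := rfl

theorem step (A : Api) (l : S_LES) [T2Space X] [LocallyCompactSpace X] [T2Space P]
    [LocallyCompactSpace P] {Y U PY PU : Type} [TopologicalSpace Y] [TopologicalSpace U]
    [TopologicalSpace PY] [TopologicalSpace PU] {i : C(Y, X)} {j : C(U, X)} {i' : C(PY, P)}
    {j' : C(PU, P)} (π : C(P, X)) (πY : C(PY, Y)) (πU : C(PU, U)) (q : C(P, K)) (t : h K) (k : ℕ)
    (p : Pair i j) (p' : Pair i' j') (hπ : IsProperMap π) (hY : IsProperMap πY)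
    (eY : ∀ y, i (πY y) = π (i' y)) (eU : ∀ u, j (πU u) = π (j' u))
    (hU : ∀ x, π x ∈ range j → x ∈ range j')
    (bY : Function.Bijective (Phi πY (q.comp i') t k))
    (bU : Function.Bijective (Phi πU (q.comp j') t k)) : Function.Bijective (Phi π q t k) := by
  obtain ⟨δ, hδ⟩ := l
  obtain ⟨e1, e2, e3⟩ := hδ.exact i j p
  obtain ⟨e1', e2', e3'⟩ := hδ.exact i' j' p'
  have s1 : (δ i' j').comp (Phi πY (q.comp i') t k) =
      (Phi πU (q.comp j') t k).comp ((δ i j).compLeft (Fin k)) := by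
    refine AddMonoidHom.ext fun c => ?_
    rw [AddMonoidHom.comp_apply, AddMonoidHom.comp_apply, Phi_apply, Phi_apply, map_sum]
    refine Finset.sum_congr rfl fun r _ => ?_
    rw [hδ.lin i' j' q p', hδ.nat i j i' j' π πY πU p p' hπ eY eU]
    rfl
  have s2 : (Hpush j').comp (Phi πU (q.comp j') t k) =
      (Phi π q t k).comp ((Hpush j).compLeft (Fin k)) := by
    refine AddMonoidHom.ext fun c => ?_
    rw [AddMonoidHom.comp_apply, AddMonoidHom.comp_apply, Phi_apply, Phi_apply, map_sum]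
    refine Finset.sum_congr rfl fun r _ => ?_
    rw [(A.act.push q j' _).2]
    refine congrArg _ (Prod.ext ((A.fn.bc π j j' πU hπ p.op p'.op eU hU).2 _).symm
      ((A.fn.bc (xR π) (xR j) (xR j') (xR πU) (hπ.prodMap isProperMap_id)
        (p.op.prodMap IsOpenEmbedding.id) (p'.op.prodMap IsOpenEmbedding.id)
        (fun u => Prod.ext (eU u.1) rfl) ?_).2 _).symm)
    rintro x ⟨u, hu⟩
    obtain ⟨v, hv⟩ := hU x.1 ⟨u.1, congrArg Prod.fst hu⟩
    exact ⟨(v, x.2), Prod.ext hv rfl⟩
  have s3 : (Hpull i').comp (Phi π q t k) =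
      (Phi πY (q.comp i') t k).comp ((Hpull i).compLeft (Fin k)) := by
    refine AddMonoidHom.ext fun c => ?_
    rw [AddMonoidHom.comp_apply, AddMonoidHom.comp_apply, Phi_apply, Phi_apply, map_sum]
    refine Finset.sum_congr rfl fun r _ => ?_
    rw [(A.act.pull q i' _).2, A.act.Hcomp π i' hπ p'.cl.isProperMap]
    refine congrArg _ (Eq.trans ?_ (A.act.Hcomp i πY p.cl.isProperMap hY (c r)).symm)
    rw [show π.comp i' = i.comp πY from ContinuousMap.ext fun y => (eY y).symm]
  exact AddMonoidHom.bijective_of_surjective_of_bijective_of_bijective_of_injective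
    ((δ i j).compLeft (Fin k)) ((Hpush j).compLeft (Fin k)) ((Hpull i).compLeft (Fin k))
    ((δ i j).compLeft (Fin k)) (δ i' j') (Hpush j') (Hpull i') (δ i' j') _ _ _ _ _ s1 s2 s3 s1
    (exact_pi e3 k) (exact_pi e1 k) (exact_pi e2 k) e3' e1' e2' bY.2 bU bY bU.1

end

theorem sub (A : Api) (X : Type) [TopologicalSpace X] [IsEmpty X] : Subsingleton (H X) :=
  ⟨fun x y => Prod.ext ((A.fn.empty _).trans (A.fn.empty _).symm)
    ((A.fn.empty _).trans (A.fn.empty _).symm)⟩

theorem ind (A : Api) (l : S_LES) (p0 : S_PBT0) (k N n : ℕ) :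
    ∀ {X P : Type} [TopologicalSpace X] [T2Space X] [LocallyCompactSpace X] [TopologicalSpace P]
      (ξ : Bun X) (φ : FD.std N ≃L[ℂ] ξ.W) (π : C(P, X)) (q : C(P, CP N N)) (G : Fin n → Set X),
      (∀ i, IsOpen (G i)) → ⋃ i, G i = univ →
      (∀ i, (ξ.pull (vl (G i))).Iso (Bun.triv (G i) (FD.std k))) → IsPr ξ φ π q →
      Function.Bijective (Phi π q (eu (taut N N)) k) := by
  induction n with
  | zero =>
    intro X P _ _ _ _ ξ φ π q G _ hG _ _
    have : IsEmpty X := ⟨fun x => by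
      obtain ⟨i, -⟩ := mem_iUnion.1 (hG ▸ mem_univ x : x ∈ ⋃ i, G i)
      exact i.elim0⟩
    have : IsEmpty P := ⟨fun p => this.false (π p)⟩
    have := sub A X
    have := sub A P
    exact ⟨fun _ _ _ => Subsingleton.elim _ _, fun y => ⟨0, Subsingleton.elim _ _⟩⟩
  | succ n ih =>
    intro X P _ _ _ _ ξ φ π q G ho hG ht hp
    have hc := closed hp
    have : T2Space P := hc.isEmbedding.t2Space
    have : LocallyCompactSpace P := hc.locallyCompactSpace
    have : LocallyCompactSpace (G 0) := (ho 0).locallyCompactSpace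
    have : LocallyCompactSpace ((G 0)ᶜ : Set X) := (ho 0).isClosed_compl.locallyCompactSpace
    refine step A l (i' := vl (π ⁻¹' (G 0)ᶜ)) (j' := vl (π ⁻¹' G 0)) π (rs π (G 0)ᶜ) (rs π (G 0)) q
      _ k (pair (ho 0)) (pair ((ho 0).preimage π.continuous)) (proper hp)
      (proper (restr hp _)) (fun _ => rfl) (fun _ => rfl) ?_ ?_
      (p0 (ξ.pull (vl (G 0))) k N φ _ _ (ht 0) (restr hp _))
    · rintro x ⟨u, hu⟩
      exact ⟨⟨x, show π x ∈ G 0 from hu ▸ u.2⟩, rfl⟩
    · refine ih (ξ.pull (vl (G 0)ᶜ)) φ _ _ (fun i => Subtype.val ⁻¹' G i.succ)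
        (fun i => (ho _).preimage continuous_subtype_val) (eq_univ_of_forall fun y => ?_)
        (fun i => ?_) (restr hp _)
      · obtain ⟨i, hi⟩ := mem_iUnion.1 (hG ▸ mem_univ y.1 : y.1 ∈ ⋃ i, G i)
        induction i using Fin.cases with
        | zero => exact (y.2 hi).elim
        | succ i => exact mem_iUnion.2 ⟨i, hi⟩
      · obtain ⟨u, v, e⟩ := ht i.succ
        exact ⟨u.comp (rs (vl (G 0)ᶜ) _), v.comp (rs (vl (G 0)ᶜ) _), fun x => e _⟩

end Pbt1

theorem pbt1 (A : Api) (l : S_LES) (p0 : S_PBT0) : S_PBT := by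
  intro X P _ _ _ _ ξ k N φ π q hk hp
  obtain ⟨n, G, ho, hG, ht⟩ := A.bun.loc_triv ξ k hk
  exact ⟨Pbt1.proper hp, Pbt1.ind A l p0 k N n ξ φ π q G ho hG ht hp⟩

end Pool.Agent.MP_826def_gt.BC
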