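import Pool.Agent.MP_826def_gt.BC.Cpx
import Pool.Agent.MP_826def_gt.BC.Cpr
import Pool.Agent.MP_826def_gt.BC.Pbt0
import Pool.Agent.MP_826def_gt.BC.Pbt1

/-! The projective bundle theorem. -/

namespace Pool.Agent.MP_826def_gt.BC

open Pool.Agent.MP_826def_gt.MU

variable [C : Fact Core]

theorem pbtAll (A : Api) (l : S_LES) (c : S_CPX) : S_PBT := pbt1 A l (pbt0 A c)

end Pool.Agent.MP_826def_gt.BC
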