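import Pool.Agent.MP_826def_gt.BC.Spec

/-! The cobordism of a product with a projective space. -/

namespace Pool.Agent.MP_826def_gt.BC

open Set Topology Pool.Agent.MP_826def_gt.MU

noncomputable section

namespace Cpx

variable {N m l : ℕ}

/-- The square of the Euclidean norm. -/
abbrev nq (u : Fin N → ℂ) : ℂ := ((∑ k, Complex.normSq (u k) : ℝ) : ℂ)

theorem nq_ne {u : Fin N → ℂ} (hu : u ≠ 0) : nq u ≠ 0 := Complex.ofReal_ne_zero.2 (nsq_pos hu).ne'

theorem nq_eq (u : Fin N → ℂ) : ∑ j, (starRingEnd ℂ) (u j) * u j = nq u := by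
  rw [nq, Complex.ofReal_sum]
  exact Finset.sum_congr rfl fun j _ => Complex.normSq_eq_conj_mul_self.symm

theorem nq_cont : Continuous (nq (N := N)) :=
  Complex.continuous_ofReal.comp (continuous_finsetSum _ fun k _ =>
    Complex.continuous_normSq.comp (continuous_apply k))

theorem pj_smul (u : Fin N → ℂ) {c : ℂ} (hc : c ≠ 0) : pj (c • u) = pj u := by
  funext i j
  have e : nq (c • u) = (starRingEnd ℂ) c * c * nq u := by
    rw [← nq_eq, ← nq_eq, Finset.mul_sum]
    exact Finset.sum_congr rfl fun k _ => by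
      rw [Pi.smul_apply, smul_eq_mul, map_mul]
      ring
  show (c • u) i * (starRingEnd ℂ) ((c • u) j) / nq (c • u) = u i * (starRingEnd ℂ) (u j) / nq u
  rw [e, ← mul_div_mul_left (u i * _) (nq u) (mul_ne_zero ((map_ne_zero (starRingEnd ℂ)).2 hc) hc),
    Pi.smul_apply, Pi.smul_apply, smul_eq_mul, smul_eq_mul, map_mul]
  congr 1
  ring

theorem rep (q : CP N m) : ∃ u : Fin N → ℂ, u ≠ 0 ∧ (∀ i : Fin N, m ≤ i → u i = 0) ∧ q.1 = pj u := by
  obtain ⟨u, a, b, c⟩ := q.2
  exact ⟨u, norm_ne_zero_iff.1 (a ▸ one_ne_zero), b, c.symm⟩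

theorem mem {u : Fin N → ℂ} (hu : u ≠ 0) (hz : ∀ i : Fin N, m ≤ i → u i = 0) :
    ∃ v : Fin N → ℂ, ‖v‖ = 1 ∧ (∀ i : Fin N, m ≤ i → v i = 0) ∧ pj v = pj u := by
  have h0 : ‖u‖ ≠ 0 := norm_ne_zero_iff.2 hu
  refine ⟨((‖u‖ : ℂ)⁻¹) • u, ?_, fun i hi => ?_, pj_smul u (inv_ne_zero (by exact_mod_cast h0))⟩
  · rw [norm_smul, norm_inv, Complex.norm_real, norm_norm, inv_mul_cancel₀ h0]
  · rw [Pi.smul_apply, hz i hi, smul_zero]

/-- A basis vector, or zero. -/
def ev (N i : ℕ) : Fin N → ℂ := fun j => if (j : ℕ) = i then 1 else 0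

theorem mv_ev (u : Fin N → ℂ) (i : Fin N) :
    mv (pj u) (ev N i) = ((starRingEnd ℂ) (u i) / nq u) • u := by
  rw [mv_pj]
  congr 2
  simp [ev, Fin.val_inj]

theorem col_ne (q : CP N m) : ∃ i : Fin m, mv q.1 (ev N i) ≠ 0 := by
  obtain ⟨u, a, b, c⟩ := rep q
  obtain ⟨i, hi⟩ := Function.ne_iff.1 a
  refine ⟨⟨i, not_le.1 fun h => hi (b i h)⟩, ?_⟩
  rw [c, mv_ev]
  exact smul_ne_zero (div_ne_zero ((map_ne_zero _).2 hi) (nq_ne a)) a

theorem mv_mv (q : CP N m) (y : Fin N → ℂ) : mv q.1 (mv q.1 y) = mv q.1 y :=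
  congrArg (fun A : (Fin N → ℂ) →L[ℂ] Fin N → ℂ => A y) q.idem

theorem mv_cont' (y : Fin N → ℂ) : Continuous fun q : CP N l => mv q.1 y :=
  (mv_cont.comp continuous_subtype_val).clm_apply continuous_const

/-- The sum of `m` copies of the tautological bundle. -/
abbrev pw (N l m : ℕ) : Bun (CP N l) :=
  ⟨⟨Fin m → Fin N → ℂ⟩, ⟨fun q => ContinuousLinearMap.pi fun i =>
    mv q.1 ∘L ContinuousLinearMap.proj i, continuous_clm_apply.2 fun M =>
      continuous_pi fun i => mv_cont' (M i)⟩,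
    fun q => ContinuousLinearMap.ext fun M => funext fun i => mv_mv q (M i)⟩

/-- Its section by the first `m` columns. -/
def sec (N l m : ℕ) : C(CP N l, Fin m → Fin N → ℂ) :=
  ⟨fun q i => mv q.1 (ev N i), continuous_pi fun _ => mv_cont' _⟩

theorem pw_split (N l m : ℕ) : (pw N l m).Split fun _ : Fin m => taut N l := by
  have c := mv_cont.comp (continuous_subtype_val : Continuous fun q : CP N l => q.1)
  refine ⟨fun i => ⟨fun q => ContinuousLinearMap.single ℂ (fun _ : Fin m => Fin N → ℂ) i ∘L mv q.1,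
      continuous_const.clm_comp c⟩,
    fun i => ⟨fun q => mv q.1 ∘L ContinuousLinearMap.proj i, c.clm_comp continuous_const⟩,
    fun q => ⟨fun i => ContinuousLinearMap.ext fun y => ?_,
      fun i j hij => ContinuousLinearMap.ext fun y => ?_,
      ContinuousLinearMap.ext fun M => funext fun i => ?_⟩⟩
  · show mv q.1 ((Pi.single i (mv q.1 y) : Fin m → Fin N → ℂ) i) = mv q.1 y
    rw [Pi.single_eq_same, mv_mv]
  · show mv q.1 ((Pi.single j (mv q.1 y) : Fin m → Fin N → ℂ) i) = 0
    rw [Pi.single_eq_of_ne hij, map_zero]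
  · rw [sum_apply, Finset.sum_apply]
    show ∑ j, (Pi.single j (mv q.1 (mv q.1 (M j))) : Fin m → Fin N → ℂ) i = mv q.1 (M i)
    rw [Finset.sum_pi_single, if_pos (Finset.mem_univ i), mv_mv]

/-- The vector that spans the line of the open cell with coordinate `z`. -/
def wv (N : ℕ) (z : Fin m → ℂ) : Fin N → ℂ := fun j =>
  if h : (j : ℕ) < m then (starRingEnd ℂ) (z ⟨j, h⟩) else if (j : ℕ) = m then 1 else 0

theorem wv_cont : Continuous (wv (m := m) N) := continuous_pi fun j => by
  by_cases h : (j : ℕ) < m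
  · simp only [wv, dif_pos h]
    exact Complex.continuous_conj.comp (continuous_apply _)
  · simp only [wv, dif_neg h]
    exact continuous_const

theorem wv_top (hm : m < N) (z : Fin m → ℂ) : wv N z ⟨m, hm⟩ = 1 := by simp [wv]

theorem wv_low (hm : m < N) (z : Fin m → ℂ) (i : Fin m) :
    wv N z ⟨i, i.2.trans hm⟩ = (starRingEnd ℂ) (z i) := by simp [wv]

theorem wv_ne (hm : m < N) (z : Fin m → ℂ) : wv N z ≠ 0 := fun h =>
  one_ne_zero ((wv_top hm z).symm.trans (congrFun h _))

theorem wv_high (z : Fin m → ℂ) (i : Fin N) (hi : m + 1 ≤ i) : wv N z i = 0 := by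
  rw [wv, dif_neg (by omega), if_neg (by omega)]

/-- The open cell. -/
def cell (hm : m < N) : C(Fin m → ℂ, CP N (m + 1)) :=
  ⟨fun z => ⟨pj (wv N z), mem (wv_ne hm z) (wv_high z)⟩,
    (pj_cont.comp_continuous wv_cont (wv_ne hm)).subtype_mk _⟩

/-- The coordinates on the open cell. -/
def crd (hm : m < N) (q : CP N (m + 1)) : Fin m → ℂ :=
  fun i => q.1 ⟨m, hm⟩ ⟨i, i.2.trans hm⟩ / q.1 ⟨m, hm⟩ ⟨m, hm⟩

theorem pj_top {u : Fin N → ℂ} (hu : u ≠ 0) (i : Fin N) : pj u i i = 0 ↔ u i = 0 := by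
  show u i * (starRingEnd ℂ) (u i) / nq u = 0 ↔ _
  rw [div_eq_zero_iff, or_iff_left (nq_ne hu), mul_eq_zero, map_eq_zero, or_self]

theorem crd_cell (hm : m < N) (z : Fin m → ℂ) : crd hm (cell hm z) = z := by
  funext i
  have := nq_ne (wv_ne hm z)
  show wv N z _ * (starRingEnd ℂ) (wv N z _) / nq (wv N z) /
    (wv N z _ * (starRingEnd ℂ) (wv N z _) / nq (wv N z)) = z i
  rw [wv_top, wv_low hm, Complex.conj_conj, map_one]
  field_simp

theorem cell_crd (hm : m < N) (q : CP N (m + 1)) (hq : q.1 ⟨m, hm⟩ ⟨m, hm⟩ ≠ 0) :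
    cell hm (crd hm q) = q := by
  obtain ⟨u, a, b, c⟩ := rep q
  have h1 : u ⟨m, hm⟩ ≠ 0 := fun h => hq (c ▸ (pj_top a _).2 h)
  have h2 := (map_ne_zero (starRingEnd ℂ)).2 h1
  have h3 := nq_ne a
  refine Subtype.ext ?_
  rw [c, ← pj_smul u (inv_ne_zero h1)]
  refine congrArg pj (funext fun j => ?_)
  rw [Pi.smul_apply, smul_eq_mul, wv]
  split_ifs with k1 k2
  · have : crd hm q ⟨j, k1⟩ = (starRingEnd ℂ) (u j / u ⟨m, hm⟩) := by
      rw [crd, c, map_div₀]
      show u _ * (starRingEnd ℂ) (u j) / nq u / (u _ * (starRingEnd ℂ) (u _) / nq u) = _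
      field_simp
    rw [this, Complex.conj_conj, div_eq_inv_mul]
  · obtain rfl : j = ⟨m, hm⟩ := Fin.ext k2
    exact (inv_mul_cancel₀ h1).symm
  · rw [b j (by omega), mul_zero]

theorem range_cell (hm : m < N) : range (cell hm) = {q | q.1 ⟨m, hm⟩ ⟨m, hm⟩ ≠ 0} :=
  Set.ext fun q => ⟨by
    rintro ⟨z, rfl⟩ h
    exact one_ne_zero ((wv_top hm z).symm.trans ((pj_top (wv_ne hm z) _).1 h)),
    fun h => ⟨_, cell_crd hm q h⟩⟩

theorem range_incl (hm : m < N) :
    range (CP.incl N m.le_succ) = {q | q.1 ⟨m, hm⟩ ⟨m, hm⟩ = 0} :=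
  Set.ext fun q => ⟨by
    rintro ⟨q', rfl⟩
    obtain ⟨u, a, b, c⟩ := rep q'
    show q'.1 _ _ = 0
    rw [c]
    exact (pj_top a _).2 (b _ le_rfl), fun h => by
    obtain ⟨u, a, b, c⟩ := rep q
    have h1 : u ⟨m, hm⟩ = 0 := (pj_top a _).1 (c ▸ h)
    refine ⟨⟨q.1, c ▸ mem a fun i hi => ?_⟩, rfl⟩
    rcases hi.eq_or_lt with e | e
    · exact (congrArg u (Fin.ext e.symm)).trans h1
    · exact b i e⟩

theorem cell_open (hm : m < N) : IsOpenEmbedding (cell hm) := by
  have c : ∀ i j, Continuous fun q : CP N (m + 1) => q.1 i j := fun i j =>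
    (continuous_apply_apply i j).comp continuous_subtype_val
  have hO : IsOpen {q : CP N (m + 1) | q.1 ⟨m, hm⟩ ⟨m, hm⟩ ≠ 0} := isOpen_ne_fun (c _ _) continuous_const
  refine ⟨IsEmbedding.subtypeVal.comp (IsEmbedding.of_leftInverse
    (f := fun q : {q : CP N (m + 1) | q.1 ⟨m, hm⟩ ⟨m, hm⟩ ≠ 0} => crd hm q.1)
    (g := fun z => ⟨cell hm z, (range_cell hm).subset ⟨z, rfl⟩⟩) (crd_cell hm) ?_
    ((cell hm).continuous.subtype_mk _)), range_cell hm ▸ hO⟩
  exact continuous_pi fun i => ((c _ _).comp continuous_subtype_val).div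
    ((c _ _).comp continuous_subtype_val) fun q => q.2

theorem incl_closed (hm : m ≤ l) : IsClosedEmbedding (CP.incl N hm) :=
  (CP.incl N hm).continuous.isClosedEmbedding fun _ _ h =>
    Subtype.ext (congrArg (fun q : CP N l => q.1) h)

/-- The inner product with `w`. -/
def ip (w : Fin N → ℂ) : (Fin N → ℂ) →L[ℂ] ℂ :=
  ∑ j, (starRingEnd ℂ) (w j) • ContinuousLinearMap.proj j

theorem ip_apply (w y : Fin N → ℂ) : ip w y = ∑ j, (starRingEnd ℂ) (w j) * y j := by
  rw [ip, sum_apply]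
  rfl

variable [C : Fact Core]

theorem pow_eq (A : Api) (N l m : ℕ) : eu (taut N l) ^ m = eu (pw N l m) := by
  rw [A.eul.split _ _ (pw_split N l m), Finset.prod_const, Finset.card_univ, Fintype.card_fin]

theorem pow_zero (A : Api) (N m : ℕ) : eu (taut N m) ^ m = 0 := by
  have := A.eul.nz (fun _ : Fin m => taut N m) (fun i => ⟨fun q => mv q.1 (ev N i), mv_cont' _⟩)
    (fun i q => mv_mv q _) col_ne
  rwa [Finset.prod_const, Finset.card_univ, Fintype.card_fin] at this

/-- The top power of the Euler class is the class of the open cell. -/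
theorem top (A : Api) (hm : m < N) {Y P U : Type} [TopologicalSpace Y] [TopologicalSpace P]
    [TopologicalSpace U] (π : C(P, Y)) (q : C(P, CP N (m + 1))) (j : C(U, P)) (g : C(U, Y))
    (z : C(U, Fin m → ℂ)) (hπ : IsProperMap π) (hj : IsOpenEmbedding j) (hg : ∀ u, g u = π (j u))
    (hq : ∀ u, q (j u) = cell hm (z u)) (hr : ∀ x, q x ∈ range (cell hm) → x ∈ range j) (y : h Y) :
    act q (eu (taut N (m + 1)) ^ m) (pull π y) =
      push j (twist g (Bun.triv U (FD.std m)) z y) := by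
  have t1 := A.tw.tw_id ((pw N (m + 1) m).pull q) ((sec N (m + 1) m).comp q)
    fun x => funext fun i => mv_mv (q x) _
  have t2 := A.tw.twist_pull _ _ _ π t1.1 hπ
  have t3 := A.fn.bcT _ _ _ (ContinuousMap.id Y) j g t2.1 IsOpenEmbedding.id hj hg fun x h0 _ => by
    refine hr x ?_
    rw [range_cell]
    intro h1
    obtain ⟨q', e⟩ := (range_incl hm).superset h1
    obtain ⟨i, hi⟩ := col_ne q'
    have h2 : mv (q x).1 (ev N i) = 0 := congrFun h0 i
    rw [← e] at h2
    exact hi h2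
  have cw : Continuous fun u => wv N (z u) := wv_cont.comp z.continuous
  have t4 := A.tw.iso g _ (Bun.triv U (FD.std m)) _ z
    ⟨fun u => ContinuousLinearMap.pi fun i => ip (wv N (z u)) ∘L ContinuousLinearMap.proj i,
      continuous_clm_apply.2 fun M => continuous_pi fun i => by
        show Continuous fun u => ip (wv N (z u)) (M i)
        simp only [ip_apply]
        exact continuous_finsetSum _ fun k _ =>
          (Complex.continuous_conj.comp ((continuous_apply k).comp cw)).mul continuous_const⟩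
    ⟨fun u => ContinuousLinearMap.pi fun i => (ContinuousLinearMap.proj i :
      (Fin m → ℂ) →L[ℂ] ℂ).smulRight ((nq (wv N (z u)))⁻¹ • wv N (z u)),
      continuous_clm_apply.2 fun a => continuous_pi fun i =>
        (((nq_cont.comp cw).inv₀ fun u => nq_ne (wv_ne hm _)).smul cw).const_smul (a i)⟩
    t3.1 fun u => by
      have n0 := nq_ne (wv_ne hm (z u))
      have n1 : ip (wv N (z u)) (wv N (z u)) = nq (wv N (z u)) := (ip_apply _ _).trans (nq_eq _)
      refine ⟨ContinuousLinearMap.ext fun M => funext fun i => ?_,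
        ContinuousLinearMap.ext fun a => funext fun i => ?_, funext fun i => ?_⟩
      · show ip (wv N (z u)) (M i) • (nq (wv N (z u)))⁻¹ • wv N (z u) = mv (q (j u)).1 (M i)
        rw [hq, smul_smul, ip_apply, ← div_eq_mul_inv]
        exact (mv_pj _ _).symm
      · show ip (wv N (z u)) (a i • (nq (wv N (z u)))⁻¹ • wv N (z u)) = a i
        rw [map_smul, map_smul, n1, smul_eq_mul, smul_eq_mul, inv_mul_cancel₀ n0, mul_one]
      · show ip (wv N (z u)) (mv (q (j u)).1 (ev N i)) = z u i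
        rw [hq]
        show ip (wv N (z u)) (mv (pj (wv N (z u))) (ev N (⟨i, i.2.trans hm⟩ : Fin N))) = z u i
        rw [mv_ev, map_smul, n1, wv_low hm, Complex.conj_conj, smul_eq_mul, div_mul_cancel₀ _ n0]
  have e : push (ContinuousMap.id Y) y = y :=
    (A.fn.push_homeo _ (ContinuousMap.id Y) (fun _ => rfl) (fun _ => rfl) y).trans (pull_id y)
  rw [pow_eq A, ← (A.eul.act q _).1, ← t1.2, t2.2, ← t4.2, ← t3.2, e]

omit C in
theorem xR_proper {X X' : Type} [TopologicalSpace X] [TopologicalSpace X'] {f : C(X', X)}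
    (hf : IsProperMap f) : IsProperMap (xR f) := hf.prodMap isProperMap_id

/-- The map of the theorem. -/
def Phi {X P K : Type} [TopologicalSpace X] [TopologicalSpace P] [TopologicalSpace K]
    [CompactSpace K] [T2Space K] (π : C(P, X)) (q : C(P, K)) (t : h K) (k : ℕ) (c : Fin k → H X) :
    H P := ∑ i : Fin k, Hact q (t ^ (i : ℕ)) (Hpull π (c i))

theorem Phi_sub {X P K : Type} [TopologicalSpace X] [TopologicalSpace P] [TopologicalSpace K]
    [CompactSpace K] [T2Space K] (π : C(P, X)) (q : C(P, K)) (t : h K) (k : ℕ)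
    (c c' : Fin k → H X) : Phi π q t k (c - c') = Phi π q t k c - Phi π q t k c' := by
  simp only [Phi, Pi.sub_apply, map_sub, Finset.sum_sub_distrib]

theorem Phi_pull (A : Api) {X P P' K : Type} [TopologicalSpace X] [TopologicalSpace P]
    [TopologicalSpace P'] [TopologicalSpace K] [CompactSpace K] [T2Space K] (π : C(P, X))
    (q : C(P, K)) (φ : C(P', P)) (hπ : IsProperMap π) (hφ : IsProperMap φ) (t : h K) (k : ℕ)
    (c : Fin k → H X) : Hpull φ (Phi π q t k c) = Phi (π.comp φ) (q.comp φ) t k c := by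
  simp only [Phi, map_sum, (A.act.pull _ _ _).2, A.act.Hcomp _ _ hπ hφ]

theorem prd (A : Api) (l : S_LES) (t : S_Thom) (Y : Type) [TopologicalSpace Y] [T2Space Y]
    [LocallyCompactSpace Y] : ∀ m, m ≤ N → Function.Bijective
      (Phi (ContinuousMap.fst : C(Y × CP N m, Y)) ContinuousMap.snd (eu (taut N m)) m)
  | 0, _ => by
    have : IsEmpty (CP N 0) := ⟨fun q => (col_ne q).elim fun i _ => i.elim0⟩
    exact ⟨fun _ _ _ => Subsingleton.elim _ _, fun x => ⟨0, Prod.ext
      ((A.fn.empty _).trans (A.fn.empty _).symm) ((A.fn.empty _).trans (A.fn.empty _).symm)⟩⟩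
  | m + 1, hm => by
    have ih := prd A l t Y m (m.le_succ.trans hm)
    obtain ⟨δ, hδ⟩ := l
    let i : C(Y × CP N m, Y × CP N (m + 1)) := (ContinuousMap.id Y).prodMap (CP.incl N m.le_succ)
    let j : C(Y × (Fin m → ℂ), Y × CP N (m + 1)) := (ContinuousMap.id Y).prodMap (cell hm)
    have pr : Pair i j := ⟨IsClosedEmbedding.id.prodMap (incl_closed _),
      IsOpenEmbedding.id.prodMap (cell_open hm), by
        show range (Prod.map id (cell hm)) = (range (Prod.map id (CP.incl N m.le_succ)))ᶜ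
        rw [range_prodMap, range_prodMap, range_cell, range_incl hm, range_id]
        ext x
        simp⟩
    obtain ⟨e1, e2, e3⟩ := hδ.exact i j pr
    have hπ : IsProperMap (ContinuousMap.fst : C(Y × CP N (m + 1), Y)) :=
      isProperMap_fst_of_compactSpace
    obtain ⟨T, hT, th⟩ : ∃ T : H Y →+ H (Y × (Fin m → ℂ)), T = Htwist ContinuousMap.fst
        ((Bun.triv Y (FD.std m)).pull ContinuousMap.fst) ContinuousMap.snd ∧
          Function.Bijective T := ⟨_, rfl,
      (t (Bun.triv Y (FD.std m)) (ContinuousMap.fst : C(Y × (Fin m → ℂ), Y)) ContinuousMap.snd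
        ⟨IsEmbedding.id, range_id.trans (eq_univ_of_forall fun _ => rfl).symm⟩).2.2⟩
    have r : ∀ x : Y × CP N (m + 1), x.2 ∈ range (cell hm) → x ∈ range j :=
      fun x ⟨z, hz⟩ => ⟨(x.1, z), Prod.ext rfl hz⟩
    have tp : ∀ y : H Y, Hact ContinuousMap.snd (eu (taut N (m + 1)) ^ m)
        (Hpull ContinuousMap.fst y) = Hpush j (T y) := fun y => by
      subst hT
      exact Prod.ext (top A hm _ _ j ContinuousMap.fst ContinuousMap.snd hπ pr.op (fun _ => rfl)
        (fun _ => rfl) r y.1)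
        (top A hm (xR ContinuousMap.fst) (ContinuousMap.snd.comp ContinuousMap.fst) (xR j)
          (xR ContinuousMap.fst) (ContinuousMap.snd.comp ContinuousMap.fst) (xR_proper hπ)
          (pr.op.prodMap IsOpenEmbedding.id) (fun _ => rfl) (fun _ => rfl)
          (fun x hx => (r x.1 hx).elim fun u hu => ⟨(u, x.2), Prod.ext hu rfl⟩) y.2)
    have rs : ∀ k (c : Fin k → H Y), Hpull i (Phi ContinuousMap.fst ContinuousMap.snd
        (eu (taut N (m + 1))) k c) =
          Phi ContinuousMap.fst ContinuousMap.snd (eu (taut N m)) k c := fun k c => by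
      rw [Phi_pull A _ _ _ hπ pr.cl.isProperMap]
      refine Finset.sum_congr rfl fun a _ => ?_
      have := (A.act.base (ContinuousMap.snd : C(Y × CP N m, _)) (CP.incl N m.le_succ)
        (eu (taut N (m + 1)) ^ (a : ℕ))).2
      rw [map_pow, A.eul.pull] at this
      exact (DFunLike.congr_fun this _).symm
    have sp : ∀ {P K : Type} [TopologicalSpace P] [TopologicalSpace K] [CompactSpace K] [T2Space K]
        (π : C(P, Y)) (q : C(P, K)) (s : h K) (c : Fin (m + 1) → H Y), Phi π q s (m + 1) c =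
          Phi π q s m (Fin.init c) + Hact q (s ^ m) (Hpull π (c (Fin.last m))) :=
      fun π q s c => Fin.sum_univ_castSucc _
    have rs' : ∀ c : Fin (m + 1) → H Y, Hpull i (Phi ContinuousMap.fst ContinuousMap.snd
        (eu (taut N (m + 1))) (m + 1) c) =
          Phi ContinuousMap.fst ContinuousMap.snd (eu (taut N m)) m (Fin.init c) := fun c => by
      rw [rs, sp, pow_zero A, map_zero]
      exact add_zero _
    have ji : Function.Injective (Hpush j) := (injective_iff_map_eq_zero _).2 fun x hx => by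
      obtain ⟨y, rfl⟩ := (e3 x).1 hx
      obtain ⟨c, rfl⟩ := ih.2 y
      rw [← rs]
      exact e2.apply_apply_eq_zero _
    have z0 : ∀ {P K : Type} [TopologicalSpace P] [TopologicalSpace K] [CompactSpace K] [T2Space K]
        (π : C(P, Y)) (q : C(P, K)) (s : h K), Phi π q s m 0 = 0 := fun π q s => by
      simp only [Phi, Pi.zero_apply, map_zero, Finset.sum_const_zero]
    refine ⟨fun c c' e => ?_, fun x => ?_⟩
    · rw [← sub_eq_zero, ← Phi_sub] at e
      rw [← sub_eq_zero]
      generalize c - c' = d at e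
      have a : Fin.init d = 0 := ih.1 (by rw [← rs', e, map_zero, z0])
      rw [sp, a, z0, zero_add, tp] at e
      have b : d (Fin.last m) = 0 := th.1 (ji (by rw [e, map_zero, map_zero]))
      funext k
      refine Fin.lastCases b (fun k => congrFun a k) k
    · obtain ⟨c, hc⟩ := ih.2 (Hpull i x)
      obtain ⟨u, hu⟩ := (e1 (x - Phi ContinuousMap.fst ContinuousMap.snd
        (eu (taut N (m + 1))) m c)).1 (by rw [map_sub, rs, hc, sub_self])
      obtain ⟨y, rfl⟩ := th.2 u
      refine ⟨Fin.snoc (α := fun _ => H Y) c y, ?_⟩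
      rw [sp, Fin.init_snoc, Fin.snoc_last, tp, hu, add_sub_cancel]

end Cpx

variable [C : Fact Core]

theorem cpx (A : Api) (l : S_LES) (t : S_Thom) : S_CPX := by
  intro N m
  refine ⟨Cpx.pow_zero A N m, fun hm Y P _ _ _ _ π q he => ?_⟩
  obtain ⟨c, g, g1, g2, g3⟩ := isHomeomorph_iff_exists_inverse.1 he
  let e : C(P, Y × CP N m) := ⟨_, c⟩
  let e' : C(Y × CP N m, P) := ⟨g, g3⟩
  have p1 : IsProperMap e := he.isClosedEmbedding.isProperMap
  have p2 : IsProperMap e' :=
    (isHomeomorph_iff_exists_inverse.2 ⟨g3, _, g2, g1, c⟩).isClosedEmbedding.isProperMap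
  have b : Function.Bijective (Hpull e) := Function.bijective_iff_has_inverse.2
    ⟨Hpull e', fun y => by
      rw [A.act.Hcomp _ _ p1 p2, show e.comp e' = ContinuousMap.id _ from ContinuousMap.ext g2,
        A.act.Hid], fun y => by
      rw [A.act.Hcomp _ _ p2 p1, show e'.comp e = ContinuousMap.id _ from ContinuousMap.ext g1,
        A.act.Hid]⟩
  have k : Hpull e ∘ Cpx.Phi ContinuousMap.fst ContinuousMap.snd (eu (taut N m)) m =
      Cpx.Phi π q (eu (taut N m)) m :=
    funext fun c => Cpx.Phi_pull A _ _ e isProperMap_fst_of_compactSpace p1 _ m c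
  have := b.comp (Cpx.prd A l t Y m hm)
  rw [k] at this
  exact this

end

end Pool.Agent.MP_826def_gt.BC
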