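import Pool.Agent.MP_826def_gt.MU.Spec

/-!
The five lemma for families of classes over a space that is split into a closed and an open part.
-/

namespace Pool.Agent.MP_826def_gt.BC

open Set Topology MU

noncomputable section

/-- An additive map applied in each coordinate. -/
def cw (ι : Type) {M N : Type 1} [AddCommGroup M] [AddCommGroup N] (f : M →+ N) :
    (ι → M) →+ ι → N where
  toFun c i := f (c i)
  map_zero' := funext fun _ => map_zero f
  map_add' _ _ := funext fun _ => map_add f _ _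

theorem cw_exact (ι : Type) {M N L : Type 1} [AddCommGroup M] [AddCommGroup N] [AddCommGroup L]
    {f : M →+ N} {g : N →+ L} (h : Function.Exact f g) : Function.Exact (cw ι f) (cw ι g) := by
  intro c
  constructor
  · intro hc
    choose d hd using fun i => (h (c i)).1 (congrFun hc i)
    exact ⟨d, funext hd⟩
  · rintro ⟨d, rfl⟩
    exact funext fun i => h.apply_apply_eq_zero _

/-- The five lemma for exact triangles. -/
theorem five {U X Y U' X' Y' : Type 1} [AddCommGroup U] [AddCommGroup X] [AddCommGroup Y]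
    [AddCommGroup U'] [AddCommGroup X'] [AddCommGroup Y'] {a : U →+ X} {b : X →+ Y} {d : Y →+ U}
    {a' : U' →+ X'} {b' : X' →+ Y'} {d' : Y' →+ U'} (h1 : Function.Exact a b)
    (h2 : Function.Exact b d) (h3 : Function.Exact d a) (h1' : Function.Exact a' b')
    (h2' : Function.Exact b' d') (h3' : Function.Exact d' a') (φU : U →+ U') (φX : X →+ X')
    (φY : Y →+ Y') (ea : ∀ u, a' (φU u) = φX (a u)) (eb : ∀ x, b' (φX x) = φY (b x))
    (ed : ∀ y, d' (φY y) = φU (d y)) (hU : Function.Bijective φU) (hY : Function.Bijective φY) :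
    Function.Bijective φX :=
  AddMonoidHom.bijective_of_surjective_of_bijective_of_bijective_of_injective d a b d d' a' b' d'
    φY φU φX φY φU (AddMonoidHom.ext ed) (AddMonoidHom.ext ea) (AddMonoidHom.ext eb)
    (AddMonoidHom.ext ed) h3 h1 h2 h3' h1' h2' hY.2 hU hY hU.1

variable {X Y U P K : Type} [TopologicalSpace X] [TopologicalSpace Y] [TopologicalSpace U]
  [TopologicalSpace P] [TopologicalSpace K]

theorem xR_proper {f : C(P, X)} (hf : IsProperMap f) : IsProperMap (xR f) :=
  hf.prodMap isProperMap_id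

theorem xR_open {j : C(U, X)} (hj : IsOpenEmbedding j) : IsOpenEmbedding (xR j) :=
  hj.prodMap IsOpenEmbedding.id

variable [Fact Core]

/-- Base change on `H`. -/
theorem Hbc (A : Api) {X X' U U' : Type} [TopologicalSpace X] [TopologicalSpace X']
    [TopologicalSpace U] [TopologicalSpace U'] (f : C(X', X)) (j : C(U, X)) (j' : C(U', X'))
    (f' : C(U', U)) (hf : IsProperMap f) (hj : IsOpenEmbedding j) (hj' : IsOpenEmbedding j')
    (e : ∀ u, j (f' u) = f (j' u)) (r : ∀ x, f x ∈ range j → x ∈ range j') (y : H U) :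
    Hpull f (Hpush j y) = Hpush j' (Hpull f' y) := by
  refine Prod.ext ((A.fn.bc f j j' f' hf hj hj' e r).2 _)
    ((A.fn.bc (xR f) (xR j) (xR j') (xR f') (xR_proper hf) (xR_open hj) (xR_open hj')
      (fun u => Prod.ext (e u.1) rfl) ?_).2 _)
  rintro x ⟨u, hu⟩
  obtain ⟨v, hv⟩ := r x.1 ⟨u.1, congrArg Prod.fst hu⟩
  exact ⟨(v, x.2), Prod.ext hv rfl⟩

/-- The map `c ↦ ∑ a i • π^* (c i)`. -/
def Phi [CompactSpace K] [T2Space K] {ι : Type} [Fintype ι] (π : C(P, X)) (q : C(P, K))
    (a : ι → h K) : (ι → H X) →+ H P where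
  toFun c := ∑ i, Hact q (a i) (Hpull π (c i))
  map_zero' := Finset.sum_eq_zero fun i _ => by rw [Pi.zero_apply, map_zero, map_zero]
  map_add' c d := by
    rw [← Finset.sum_add_distrib]
    exact Finset.sum_congr rfl fun i _ => by rw [Pi.add_apply, map_add, map_add]

theorem Phi_apply [CompactSpace K] [T2Space K] {ι : Type} [Fintype ι] (π : C(P, X)) (q : C(P, K))
    (a : ι → h K) (c : ι → H X) : Phi π q a c = ∑ i, Hact q (a i) (Hpull π (c i)) := rfl

/-- A family that is a basis over a closed part and over its complement is a basis. -/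
theorem Phi_step (A : Api) (l : S_LES) [CompactSpace K] [T2Space K] [T2Space X]
    [LocallyCompactSpace X] [T2Space P] [LocallyCompactSpace P] {PY PU : Type}
    [TopologicalSpace PY] [TopologicalSpace PU] {ι : Type} [Fintype ι] (π : C(P, X)) (q : C(P, K))
    (a : ι → h K) (i : C(Y, X)) (j : C(U, X)) (i' : C(PY, P)) (j' : C(PU, P)) (πY : C(PY, Y))
    (πU : C(PU, U)) (hπ : IsProperMap π) (hp : Pair i j) (hp' : Pair i' j')
    (eY : ∀ y, i (πY y) = π (i' y)) (eU : ∀ u, j (πU u) = π (j' u))
    (hU : Function.Bijective (Phi πU (q.comp j') a))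
    (hY : Function.Bijective (Phi πY (q.comp i') a)) : Function.Bijective (Phi π q a) := by
  obtain ⟨δ, hδ⟩ := l
  obtain ⟨h1, h2, h3⟩ := hδ.exact i j hp
  obtain ⟨h1', h2', h3'⟩ := hδ.exact i' j' hp'
  have e : i.comp πY = π.comp i' := ContinuousMap.ext eY
  have hY' : IsProperMap πY := by
    have : IsProperMap (i ∘ πY) := by
      rw [show i ∘ πY = π ∘ i' from funext eY]
      exact hπ.comp hp'.cl.isProperMap
    exact isProperMap_of_comp_of_inj πY.continuous i.continuous this hp.cl.injective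
  refine five (cw_exact ι h1) (cw_exact ι h2) (cw_exact ι h3) h1' h2' h3' _ _ _ (fun c => ?_)
    (fun c => ?_) (fun c => ?_) hU hY
  · rw [Phi_apply, Phi_apply, map_sum]
    refine Finset.sum_congr rfl fun k _ => ?_
    rw [(A.act.push q j' (a k)).2, ← Hbc A π j j' πU hπ hp.op hp'.op eU]
    · rfl
    · intro x hx
      rw [hp'.co]
      rintro ⟨y, rfl⟩
      rw [hp.co] at hx
      exact hx ⟨πY y, eY y⟩
  · rw [Phi_apply, Phi_apply, map_sum]
    refine Finset.sum_congr rfl fun k _ => ?_
    rw [(A.act.pull q i' (a k)).2, A.act.Hcomp π i' hπ hp'.cl.isProperMap, ← e,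
      ← A.act.Hcomp i πY hp.cl.isProperMap hY']
    rfl
  · rw [Phi_apply, Phi_apply, map_sum]
    refine Finset.sum_congr rfl fun k _ => ?_
    rw [hδ.lin i' j' q hp', hδ.nat i j i' j' π πY πU hp hp' hπ eY eU]
    rfl

/-- The inclusion of a subset. -/
abbrev sv (G : Set X) : C(G, X) := ⟨Subtype.val, continuous_subtype_val⟩

omit [Fact Core] in
theorem pair_sv {G : Set X} (hG : IsOpen G) : Pair (sv Gᶜ) (sv G) :=
  ⟨hG.isClosed_compl.isClosedEmbedding_subtypeVal, hG.isOpenEmbedding_subtypeVal, by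
    show range Subtype.val = (range Subtype.val)ᶜ
    rw [Subtype.range_coe, Subtype.range_coe, compl_compl]⟩

theorem eul_iso (A : Api) {ξ η : Bun X} (e : ξ.Iso η) (y : h X) : eul ξ y = eul η y := by
  obtain ⟨u, v, huv⟩ := e
  exact (A.tw.iso (ContinuousMap.id X) ξ η 0 0 u v (A.tw.tw_id ξ 0 fun _ => map_zero _).1
    fun x => ⟨(huv x).1, (huv x).2, map_zero _⟩).2 y

omit [Fact Core] in
theorem iso_pull {ξ η : Bun X} (e : ξ.Iso η) (f : C(Y, X)) : (ξ.pull f).Iso (η.pull f) := by
  obtain ⟨u, v, huv⟩ := e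
  exact ⟨u.comp f, v.comp f, fun y => huv (f y)⟩

/-- The action of an Euler class only depends on the pulled back bundle. -/
theorem Hact_eu (A : Api) {K' : Type} [TopologicalSpace K'] [CompactSpace K] [T2Space K]
    [CompactSpace K'] [T2Space K'] (q : C(P, K)) (q' : C(P, K')) (ξ : Bun K) (η : Bun K')
    (e : (ξ.pull q).Iso (η.pull q')) : Hact q (eu ξ) = Hact q' (eu η) := by
  refine AddMonoidHom.ext fun y => Prod.ext ?_ ?_
  · exact ((A.eul.act q ξ).1 y.1).symm.trans ((eul_iso A e _).trans ((A.eul.act q' η).1 y.1))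
  · exact ((A.eul.act (q.comp ContinuousMap.fst) ξ).1 y.2).symm.trans
      ((eul_iso A (iso_pull e ContinuousMap.fst) _).trans
        ((A.eul.act (q'.comp ContinuousMap.fst) η).1 y.2))

end

end Pool.Agent.MP_826def_gt.BC
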