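import Pool.Agent.MP_826def_gt.MU.Spec

/-! The projective bundle theorem for trivial bundles: the statement. -/

namespace Pool.Agent.MP_826def_gt.BC

open Pool.Agent.MP_826def_gt.MU

variable [C : Fact Core]

/-- The projective bundle theorem for a trivial bundle. -/
def S_PBT0 : Prop :=
  ∀ {X P : Type} [TopologicalSpace X] [T2Space X] [LocallyCompactSpace X] [TopologicalSpace P]
    (ξ : Bun X) (k N : ℕ) (φ : FD.std N ≃L[ℂ] ξ.W) (π : C(P, X)) (q : C(P, CP N N)),
    ξ.Iso (Bun.triv X (FD.std k)) → IsPr ξ φ π q →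
      Function.Bijective fun c : Fin k → H X =>
        ∑ i : Fin k, Hact q (eu (taut N N) ^ (i : ℕ)) (Hpull π (c i))

end Pool.Agent.MP_826def_gt.BC
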